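import Mathlib
import Pool.Agent.H27.Dp1

set_option autoImplicit false

namespace Pool.Agent.Results.MP_7c844e_an.Example

open Filter Topology Set Pool.Agent.H27.Dp

/-- The slice `S(f, α)` of the closed unit ball. -/
def slice {X : Type} [NormedAddCommGroup X] [NormedSpace ℝ X] (f : X →L[ℝ] ℝ) (α : ℝ) : Set X :=
  {y | ‖y‖ ≤ 1 ∧ 1 - α < f y}

/-- Daugavet points. -/
def IsDaugavetPoint {X : Type} [NormedAddCommGroup X] [NormedSpace ℝ X] (x : X) : Prop :=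
  ‖x‖ = 1 ∧ ∀ f : X →L[ℝ] ℝ, ‖f‖ = 1 → ∀ α : ℝ, 0 < α → ∀ ε : ℝ, 0 < ε →
    ∃ y ∈ slice f α, 2 - ε < ‖x - y‖

/-- Strict convexity. -/
def IsStrictlyConvex (X : Type) [NormedAddCommGroup X] : Prop :=
  ∀ x y : X, ‖x‖ = 1 → ‖y‖ = 1 → ‖x + y‖ = 2 → x = y

theorem space : ∃ (X : Type) (_ : NormedAddCommGroup X) (_ : NormedSpace ℝ X) (_ : CompleteSpace X)
    (j : ℝ × C0 →L[ℝ] X) (Q : ℝ × C0 →L[ℝ] WithLp 2 (ℝ × L2)) (d : ℕ → ℝ),
    Function.Surjective j ∧ Function.Injective Q ∧ (∀ z, |z.1| ≤ ‖Q z‖) ∧ ‖Q (1, 0)‖ = 1 ∧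
    Tendsto (fun n => ‖Q (0, e n)‖) atTop (𝓝 0) ∧ (∀ n, 0 < d n) ∧ (∀ n, d n ≤ 1) ∧
    Tendsto d atTop (𝓝 0) ∧ (∀ z, ‖Q z‖ ≤ ‖j z‖) ∧
    (∀ z n, (1 - d n) * |z.1 + z.2 n| + d n * ‖Q z‖ ≤ ‖j z‖) ∧
    ∀ z c, ‖Q z‖ ≤ c → (∀ n, (1 - d n) * |z.1 + z.2 n| + d n * ‖Q z‖ ≤ c) → ‖j z‖ ≤ c := by
  obtain ⟨T, hT, hT'⟩ := exists_T
  let Q : ℝ × C0 →L[ℝ] WithLp 2 (ℝ × L2) :=
    ((WithLp.prodContinuousLinearEquiv 2 ℝ ℝ L2).symm : ℝ × L2 →L[ℝ] WithLp 2 (ℝ × L2)).comp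
      ((ContinuousLinearMap.id ℝ ℝ).prodMap T)
  have q1 : ∀ z, |z.1| ≤ ‖Q z‖ := fun z => WithLp.norm_fst_le _ (Q z)
  let d : ℕ → ℝ := fun n => 1 / ((n : ℝ) + 1) / 2
  have d0 : ∀ n, 0 < d n := fun n => by positivity
  have d1 : ∀ n, d n ≤ 1 / 2 := fun n => by
    have : 1 / ((n : ℝ) + 1) ≤ 1 := (div_le_one (by positivity)).2 (by simp)
    simp only [d]; linarith
  let a : ℕ → ℝ × C0 →L[ℝ] ℝ := fun n =>
    ContinuousLinearMap.fst ℝ ℝ C0 + (ev n).comp (ContinuousLinearMap.snd ℝ ℝ C0)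
  let W := (WithLp.prodContinuousLinearEquiv 1 ℝ ℝ (WithLp 2 (ℝ × L2))).symm
  let A : Option ℕ → ℝ × C0 →L[ℝ] WithLp 1 (ℝ × WithLp 2 (ℝ × L2)) := fun i =>
    (W : ℝ × WithLp 2 (ℝ × L2) →L[ℝ] _).comp
      (i.elim ((0 : ℝ × C0 →L[ℝ] ℝ).prod Q) fun n => ((1 - d n) • a n).prod (d n • Q))
  have a0 : ∀ z, ‖A none z‖ = ‖Q z‖ := fun z => WithLp.norm_toLp_snd 1 ℝ _ (Q z)
  have a1 : ∀ z n, ‖A (some n) z‖ = (1 - d n) * |z.1 + z.2 n| + d n * ‖Q z‖ := fun z n => by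
    rw [WithLp.prod_norm_eq_of_L1]
    show ‖(1 - d n) * (z.1 + z.2 n)‖ + ‖d n • Q z‖ = _
    rw [norm_mul, norm_smul, Real.norm_of_nonneg (by linarith [d1 n]),
      Real.norm_of_nonneg (d0 n).le, Real.norm_eq_abs]
  obtain ⟨X, i1, i2, i3, j, j1, j2, j3⟩ := renorm A (C := ‖Q‖ + 3) (by positivity)
    (fun i z => by
      have h1 := Q.le_opNorm z
      have h2 := norm_nonneg z
      cases i with
      | none => rw [a0]; linarith
      | some n =>
        rw [a1]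
        have h3 : |z.1 + z.2 n| ≤ 2 * ‖z‖ := by
          linarith [abs_add_le z.1 (z.2 n), C0_le z.2 n, norm_snd_le z,
            (show |z.1| ≤ ‖z‖ from norm_fst_le z)]
        nlinarith [d0 n, d1 n, norm_nonneg (Q z), abs_nonneg (z.1 + z.2 n)])
    (fun z c hc h => by
      have h1 := h none
      rw [a0] at h1
      have h2 : ‖z.2‖ ≤ 3 * c := C0_norm_le _ (by linarith) fun n => by
        have h3 := h (some n)
        rw [a1] at h3
        have h4 : |z.1 + z.2 n| ≤ 2 * c := by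
          nlinarith [d0 n, d1 n, norm_nonneg (Q z), abs_nonneg (z.1 + z.2 n)]
        have h5 := abs_sub (z.1 + z.2 n) z.1
        rw [add_sub_cancel_left] at h5
        linarith [q1 z]
      have h3 : ‖z‖ ≤ 3 * c := max_le (show |z.1| ≤ 3 * c by linarith [q1 z]) h2
      nlinarith [norm_nonneg Q])
  refine ⟨X, i1, i2, i3, j, Q, d, j1, fun z w h => ?_, q1, ?_, ?_, d0, fun n => by linarith [d1 n],
    (tendsto_one_div_add_atTop_nhds_zero_nat.div_const (2 : ℝ)).trans (by simp),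
    fun z => a0 z ▸ j2 none z, fun z n => a1 z n ▸ j2 (some n) z,
    fun z c h h' => j3 z c ((norm_nonneg _).trans h) fun i => ?_⟩
  · exact Prod.ext (congrArg (fun v => v.ofLp.1) h) (hT (congrArg (fun v => v.ofLp.2) h))
  · show ‖WithLp.toLp 2 ((1 : ℝ), T 0)‖ = 1
    rw [map_zero, WithLp.norm_toLp_fst, norm_one]
  · exact hT'.congr fun n => (WithLp.norm_toLp_snd 2 ℝ _ (T (e n))).symm
  · cases i with
    | none => rw [a0]; exact h
    | some n => rw [a1]; exact h' n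

/-- A strictly convex Banach space with a Daugavet point. -/
theorem result : ∃ (X : Type) (_ : NormedAddCommGroup X) (_ : NormedSpace ℝ X)
    (_ : CompleteSpace X), IsStrictlyConvex X ∧ ∃ x : X, IsDaugavetPoint x := by
  obtain ⟨X, i1, i2, i3, j, Q, d, j1, Q1, q1, q2, q3, d0, d1, d2, n1, n2, n3⟩ := space
  refine ⟨X, i1, i2, i3, fun x y hx hy hxy => ?_, j (1, 0), le_antisymm (n3 _ _ q2.le fun n => ?_)
    (q2.ge.trans (n1 _)), fun f hf α hα ε hε => ?_⟩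
  · obtain ⟨a, rfl⟩ := j1 x
    obtain ⟨b, rfl⟩ := j1 y
    rw [← map_add] at hxy
    have t1 : ‖Q (a + b)‖ ≤ ‖Q a‖ + ‖Q b‖ := by rw [map_add]; exact norm_add_le _ _
    have key : ‖Q (a + b)‖ = ‖Q a‖ + ‖Q b‖ := by
      by_contra hne
      have t2 := lt_of_le_of_ne t1 hne
      have t3 : ‖Q (a + b)‖ < 2 := by linarith [n1 a, n1 b]
      have t4 : ∀ n, (1 - d n) * |(a + b).1 + (a + b).2 n| + d n * ‖Q (a + b)‖ < 2 := fun n => by
        have h1 : |(a + b).1 + (a + b).2 n| ≤ |a.1 + a.2 n| + |b.1 + b.2 n| := by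
          refine le_of_eq_of_le ?_ (abs_add_le _ _)
          congr 1
          show a.1 + b.1 + (a.2 n + b.2 n) = _
          ring
        linarith [n2 a n, n2 b n, mul_lt_mul_of_pos_left t2 (d0 n),
          mul_le_mul_of_nonneg_left h1 (sub_nonneg.2 (d1 n))]
      obtain ⟨c, c1, c2⟩ := exists_between t3
      have t5 : Tendsto (fun n => |(a + b).1 + (a + b).2 n|) atTop (𝓝 |(a + b).1 + 0|) :=
        ((C0_tendsto _).const_add _).abs
      obtain ⟨N, hN⟩ := eventually_atTop.1 (t5.eventually_le_const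
        (by rw [add_zero]; exact (q1 _).trans_lt c1))
      obtain ⟨m, -, hm⟩ := (Finset.range (N + 1)).exists_max_image
        (fun n => (1 - d n) * |(a + b).1 + (a + b).2 n| + d n * ‖Q (a + b)‖) ⟨0, by simp⟩
      have := n3 (a + b) (max c ((1 - d m) * |(a + b).1 + (a + b).2 m| + d m * ‖Q (a + b)‖))
        (c1.le.trans (le_max_left _ _)) fun n => by
        by_cases h : N ≤ n
        · refine le_trans ?_ (le_max_left _ _)
          nlinarith [hN n h, d0 n, d1 n]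
        · exact (hm n (Finset.mem_range.2 (by omega))).trans (le_max_right _ _)
      exact absurd (hxy ▸ this) (not_le.2 (max_lt c2 (t4 m)))
    rw [map_add, ← sameRay_iff_norm_add, Q1.sameRay_map_iff] at key
    exact (key.map (j : ℝ × C0 →ₗ[ℝ] X)).eq_of_norm_eq (hx.trans hy.symm)
  · rw [q2]; simp
  · obtain ⟨w, w1, w2⟩ : ∃ w : X, ‖w‖ < 1 ∧ 1 - α < f w := by
      obtain ⟨w, w1, w2⟩ := f.exists_lt_apply_of_lt_opNorm (r := 1 - α) (by linarith)
      rcases lt_abs.1 w2 with h | h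
      · exact ⟨w, w1, h⟩
      · exact ⟨-w, by rwa [norm_neg], by rwa [map_neg]⟩
    obtain ⟨z, rfl⟩ := j1 w
    have ht : Tendsto (fun n => -1 - z.1 - z.2 n) atTop (𝓝 (-1 - z.1 - 0)) :=
      (C0_tendsto _).const_sub _
    have e1 := (ht.mul (weak_null ((f.comp j).comp (ContinuousLinearMap.inr ℝ ℝ C0)))).const_add
      (f (j z))
    have e2 := (ht.abs.mul q3).const_add ‖j z‖
    have e3 := (d2.const_sub 1).mul_const 2
    rw [mul_zero, add_zero] at e1 e2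
    obtain ⟨n, h1, h2, h3⟩ := ((e1.eventually_const_lt w2).and ((e2.eventually_lt_const w1).and
      (e3.eventually_const_lt (show 2 - ε < (1 - 0) * 2 by linarith)))).exists
    set t := -1 - z.1 - z.2 n with htn
    have hq : ‖Q (z + t • (0, e n))‖ ≤ ‖Q z‖ + |t| * ‖Q (0, e n)‖ := by
      rw [map_add, map_smul]
      exact (norm_add_le _ _).trans (by rw [norm_smul, Real.norm_eq_abs])
    have hc : ∀ m, (z + t • ((0 : ℝ), e n)).1 + (z + t • ((0 : ℝ), e n)).2 m =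
        if m = n then -1 else z.1 + z.2 m := fun m => by
      show z.1 + t * 0 + (z.2 m + t * e n m) = _
      rw [e_apply]
      split_ifs with h
      · rw [h, htn]; ring
      · ring
    refine ⟨j (z + t • (0, e n)), ⟨n3 _ _ (by linarith [n1 z]) fun m => ?_, ?_⟩, ?_⟩
    · rw [hc]
      split_ifs
      · rw [abs_neg, abs_one]
        nlinarith [d0 m, n1 z]
      · nlinarith [d0 m, d1 m, n2 z m, mul_nonneg (abs_nonneg t) (norm_nonneg (Q (0, e n)))]
    · rw [map_add, map_smul, map_add, map_smul]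
      exact h1
    · rw [← map_sub]
      refine lt_of_lt_of_le ?_ (n2 _ n)
      have : ((1, 0) - (z + t • ((0 : ℝ), e n))).1 + ((1, 0) - (z + t • ((0 : ℝ), e n))).2 n = 2 := by
        have h := hc n
        rw [if_pos rfl] at h
        show 1 - (z + t • ((0 : ℝ), e n)).1 + (0 - (z + t • ((0 : ℝ), e n)).2 n) = 2
        linarith
      rw [this, abs_two]
      linarith [mul_nonneg (d0 n).le (norm_nonneg (Q ((1, 0) - (z + t • ((0 : ℝ), e n)))))]

end Pool.Agent.Results.MP_7c844e_an.Example
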